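import Mathlib

namespace Pool.Agent.Results.MP_54aac5_co.Fault

open SimpleGraph

section Defs
variable {W : Type} [Fintype W]

noncomputable def deg (S : SimpleGraph W) (w : W) : ℕ := (S.neighborSet w).ncard

/-- `p` is a hamiltonian cycle -/
def IsHamCycle {G : SimpleGraph W} {a : W} (p : G.Walk a a) : Prop :=
  p.IsCycle ∧ ∀ w, w ∈ p.support

def Ham (G : SimpleGraph W) : Prop := ∃ (a : W) (p : G.Walk a a), IsHamCycle p

noncomputable def leaves (S : SimpleGraph W) : ℕ := {w | deg S w = 1}.ncard

open Classical in
/-- minimum leaf number -/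
noncomputable def ml (G : SimpleGraph W) : ℕ :=
  if Ham G then 1 else sInf {k | ∃ T, T ≤ G ∧ T.IsTree ∧ leaves T = k}

open Classical in
/-- the ml-subgraphs -/
def MLS (G : SimpleGraph W) : Set (SimpleGraph W) :=
  {S | if Ham G then
      ∃ (a : W) (p : G.Walk a a), IsHamCycle p ∧ S = fromEdgeSet {e | e ∈ p.edges}
    else S ≤ G ∧ S.IsTree ∧ leaves S = ml G}

/-- `G - v` -/
def del (G : SimpleGraph W) (v : W) : SimpleGraph {w | w ≠ v} := G.induce {w | w ≠ v}

/-- transition cost -/
noncomputable def tau (S : SimpleGraph W) (v : W) (Sv : SimpleGraph {w | w ≠ v}) : ℕ :=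
  {w : {w | w ≠ v} | deg S w ≠ deg Sv w}.ncard

open Classical in
noncomputable def phiS (G S : SimpleGraph W) : ℕ :=
  Finset.univ.sup (fun v => sInf {t | ∃ Sv ∈ MLS (del G v), tau S v Sv = t})

/-- fault cost -/
noncomputable def phi (G : SimpleGraph W) : ℕ := sInf {t | ∃ S ∈ MLS G, phiS G S = t}

lemma deg_eq (S : SimpleGraph W) (w : W) [Fintype (S.neighborSet w)] : deg S w = S.degree w := by
  rw [deg, ← card_neighborSet_eq_degree, Set.ncard_eq_toFinset_card', Set.toFinset_card]

lemma even_sum (S : SimpleGraph W) : Even (∑ w, deg S w) := by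
  classical
  rw [Finset.sum_congr rfl (fun w _ => deg_eq S w), sum_degrees_eq_twice_card_edges]
  exact even_two_mul _

lemma two_le_leaves (T : SimpleGraph W) [Nontrivial W] (h : T.IsTree) : 2 ≤ leaves T := by
  classical
  obtain ⟨u, v, huv, hu, hv⟩ := h.exists_ne_and_degree_eq_one
  rw [← Set.ncard_pair huv]
  apply Set.ncard_le_ncard _ (Set.toFinite _)
  rintro x (rfl | rfl)
  · exact (deg_eq _ _).trans hu
  · exact (deg_eq _ _).trans hv

theorem path_isTree (m : ℕ) : (pathGraph (m + 1)).IsTree := by
  refine ⟨pathGraph_connected m, ?_⟩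
  rw [isAcyclic_iff_forall_adj_isBridge]
  have key : ∀ u v : Fin (m + 1), u.val + 1 = v.val →
      ¬ ((pathGraph (m + 1)).deleteEdges {s(u, v)}).Reachable u v := by
    intro u v huv hr
    have : ∀ a b : Fin (m + 1), ((pathGraph (m + 1)).deleteEdges {s(u, v)}).Reachable a b →
        a.val ≤ u.val → b.val ≤ u.val := by
      intro a b hab
      obtain ⟨w⟩ := hab
      induction w with
      | nil => exact id
      | @cons x y z h _ ih =>
        intro hx
        apply ih
        rw [deleteEdges_adj, pathGraph_adj] at h
        obtain ⟨h1, h2⟩ := h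
        simp only [Set.mem_singleton_iff, Sym2.eq_iff, Fin.ext_iff] at h2
        omega
    have := this u v hr le_rfl
    omega
  intro u v huv
  rw [isBridge_iff]
  have h := pathGraph_adj.1 huv
  rcases h with h | h
  · exact key u v h
  · intro hr
    apply key v u h
    rw [Sym2.eq_swap]
    exact hr.symm

def pg (pos : W → ℕ) : SimpleGraph W where
  Adj x y := pos x + 1 = pos y ∨ pos y + 1 = pos x
  symm := ⟨fun _ _ h => h.symm⟩
  loopless := ⟨fun _ h => by omega⟩

def dg (m i : ℕ) : ℕ := (if i < m then 1 else 0) + (if 0 < i then 1 else 0)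

lemma pg_spec (pos : W → ℕ) (m : ℕ) (hm : 1 ≤ m) (hc : Fintype.card W = m + 1)
    (hi : Function.Injective pos) (hl : ∀ x, pos x ≤ m) :
    (pg pos).IsTree ∧ (∀ x, deg (pg pos) x = dg m (pos x)) ∧ leaves (pg pos) = 2 := by
  let f : W → Fin (m + 1) := fun x => ⟨pos x, Nat.lt_succ_of_le (hl x)⟩
  have hf : Function.Bijective f := by
    rw [Fintype.bijective_iff_injective_and_card]
    exact ⟨fun x y h => hi (congrArg Fin.val h), by simp [hc]⟩
  have hs : ∀ i, i ≤ m → ∃ x, pos x = i := by
    intro i h
    obtain ⟨x, hx⟩ := hf.2 ⟨i, Nat.lt_succ_of_le h⟩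
    exact ⟨x, congrArg Fin.val hx⟩
  have hd : ∀ x, deg (pg pos) x = dg m (pos x) := by
    intro x
    have hx := hl x
    unfold deg dg
    split_ifs with h1 h2 h2
    · obtain ⟨y, hy⟩ := hs (pos x + 1) (by omega)
      obtain ⟨z, hz⟩ := hs (pos x - 1) (by omega)
      have : (pg pos).neighborSet x = {y, z} := by
        ext w
        simp only [mem_neighborSet, pg, Set.mem_insert_iff, Set.mem_singleton_iff, ← hi.eq_iff]
        omega
      rw [this, Set.ncard_pair]
      intro h; subst h; omega
    · obtain ⟨y, hy⟩ := hs (pos x + 1) (by omega)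
      have : (pg pos).neighborSet x = {y} := by
        ext w
        simp only [mem_neighborSet, pg, Set.mem_singleton_iff, ← hi.eq_iff]
        omega
      rw [this, Set.ncard_singleton]
    · obtain ⟨z, hz⟩ := hs (pos x - 1) (by omega)
      have : (pg pos).neighborSet x = {z} := by
        ext w
        have := hl w
        simp only [mem_neighborSet, pg, Set.mem_singleton_iff, ← hi.eq_iff]
        omega
      rw [this, Set.ncard_singleton]
    · omega
  refine ⟨?_, hd, ?_⟩
  · let e : pg pos ≃g pathGraph (m + 1) :=
      ⟨Equiv.ofBijective f hf, by intro a b; simp [pathGraph_adj, pg, f]⟩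
    exact e.isTree_iff.2 (path_isTree m)
  · obtain ⟨y, hy⟩ := hs 0 (by omega)
    obtain ⟨z, hz⟩ := hs m (by omega)
    have : {w | deg (pg pos) w = 1} = {y, z} := by
      ext w
      have := hl w
      simp only [Set.mem_ofPred_eq, hd, dg, Set.mem_insert_iff, Set.mem_singleton_iff, ← hi.eq_iff]
      split_ifs <;> omega
    rw [leaves, this, Set.ncard_pair]
    intro h; subst h; omega

lemma pg_mem (G : SimpleGraph W) (hG : ¬ Ham G) (pos : W → ℕ) (m : ℕ) (hm : 1 ≤ m)
    (hc : Fintype.card W = m + 1) (hi : Function.Injective pos) (hl : ∀ x, pos x ≤ m)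
    (hle : pg pos ≤ G) : pg pos ∈ MLS G := by
  obtain ⟨h1, -, h3⟩ := pg_spec pos m hm hc hi hl
  haveI : Nontrivial W := Fintype.one_lt_card_iff_nontrivial.1 (by omega)
  simp only [MLS, Set.mem_ofPred_eq, if_neg hG, ml]
  refine ⟨hle, h1, h3.trans (le_antisymm ?_ ?_)⟩
  · refine le_csInf ⟨2, _, hle, h1, h3⟩ ?_
    rintro k ⟨T, -, hT, rfl⟩
    exact two_le_leaves T hT
  · exact Nat.sInf_le ⟨_, hle, h1, h3⟩

end Defs

def nb (v : ℕ) : List ℕ := ([[10, 7, 8], [12, 13, 5], [4, 8, 15], [9, 11, 8], [2, 5, 20], [1, 4, 10], [11, 14, 10], [0, 14, 12], [0, 2, 3], [3, 11, 12], [0, 5, 6], [3, 6, 9], [1, 7, 9], [1, 15, 29], [6, 7, 15], [2, 13, 14], [26, 23, 24], [28, 29, 21], [20, 24, 31], [25, 27, 24], [18, 21, 4], [17, 20, 26], [27, 30, 26], [16, 30, 28], [16, 18, 19], [19, 27, 28], [16, 21, 22], [19, 22, 25], [17, 23, 25], [17, 31, 13], [22, 23, 31], [18, 29, 30]] : List (List ℕ)).getD v []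

def G0 : SimpleGraph (Fin 32) where
  Adj u v := v.val ∈ nb u.val
  symm := ⟨by decide +kernel⟩
  loopless := ⟨by decide +kernel⟩

instance : DecidableRel G0.Adj := fun u v => by unfold G0; infer_instance

def ff (s v : ℕ) : ℕ := if v / 16 = s then v else 32
def mv (s c : ℕ) : List ℕ := if c = 32 then [16 * s + 4, 16 * s + 13] else (nb c).map (ff s)

def dfs (s : ℕ) : ℕ → ℕ → ℕ → Bool
  | 0, _, _ => true
  | k + 1, c, vis => (c == 32 && (List.range' (16 * s) 16).all (fun b => vis.testBit b)) ||
      (mv s c).any (fun d => if d = 32 then dfs s k 32 vis else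
        !vis.testBit d && dfs s k d (vis ||| 2 ^ d))

lemma mv_ok : ∀ s < 2, ∀ u w : Fin 32, G0.Adj u w →
    ff s w ∈ mv s (ff s u) ∨ (ff s u = 32 ∧ ff s w = 32) := by decide +kernel

lemma dfs_sound (s : ℕ) (hs : s < 2) {u w : Fin 32} (q : G0.Walk u w) (hw : w.val / 16 ≠ s) :
    q.support.tail.Nodup → ∀ vis : ℕ, (∀ x ∈ q.support.tail, vis.testBit x = false) →
    (∀ b : Fin 32, b.val / 16 = s → vis.testBit b = true ∨ b ∈ q.support.tail) →
    (∀ x : Fin 32, vis.testBit x = true → x.val / 16 = s) →
    ∀ k, dfs s k (ff s u) vis = true := by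
  induction q with
  | @nil a =>
    intro _ vis _ h2 _ k
    cases k with
    | zero => rfl
    | succ k =>
      unfold dfs
      rw [Bool.or_eq_true]; left
      simp only [ff, if_neg hw, beq_self_eq_true, Bool.true_and, List.all_eq_true,
        List.mem_range'_1]
      intro b hb
      simpa using h2 ⟨b, by omega⟩ (by simp only; omega)
  | @cons a b c h p ih =>
    intro h0 vis h1 h2 h3 k
    simp only [Walk.support_cons, List.tail_cons] at h0 h1 h2
    rw [← p.cons_tail_support] at h0 h1 h2
    rw [List.nodup_cons] at h0
    by_cases hb : b.val / 16 = s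
    · cases k with
      | zero => rfl
      | succ k =>
        unfold dfs
        rw [Bool.or_eq_true]; right
        rw [List.any_eq_true]
        have e : ff s b = b := by simp [ff, hb]
        refine ⟨b, ?_, ?_⟩
        · rcases mv_ok s hs a b h with h4 | h4
          · rwa [e] at h4
          · omega
        · rw [if_neg (by omega), h1 b (by simp)]
          simp only [Bool.not_false, Bool.true_and]
          rw [← e]
          apply ih hw h0.2
          · intro x hx
            rw [e, Nat.testBit_or, h1 x (List.mem_cons_of_mem _ hx), Nat.testBit_two_pow_of_ne]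
            · rfl
            · intro h5
              exact h0.1 ((Fin.ext h5 : b = x).symm ▸ hx)
          · intro x hx
            rw [e, Nat.testBit_or]
            rcases h2 x hx with h5 | h5
            · left; simp [h5]
            · rcases List.mem_cons.1 h5 with h6 | h6
              · left; simp [h6]
              · right; exact h6
          · intro x hx
            rw [e, Nat.testBit_or, Bool.or_eq_true] at hx
            rcases hx with h5 | h5
            · exact h3 x h5
            · rw [Nat.testBit_two_pow] at h5
              have : b.val = x.val := by simpa using h5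
              omega
    · have e : ff s b = 32 := by simp [ff, hb]
      have key : ∀ k, dfs s k 32 vis = true := by
        rw [← e]
        apply ih hw h0.2 vis (fun x hx => h1 x (List.mem_cons_of_mem _ hx)) _ h3
        intro x hx
        rcases h2 x hx with h5 | h5
        · exact Or.inl h5
        · rcases List.mem_cons.1 h5 with h6 | h6
          · subst h6; exact absurd hx hb
          · exact Or.inr h6
      rcases mv_ok s hs a b h with h4 | h4
      · cases k with
        | zero => rfl
        | succ k =>
          unfold dfs
          rw [Bool.or_eq_true]; right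
          rw [List.any_eq_true]
          exact ⟨32, by rwa [e] at h4, by simp [key k]⟩
      · rw [h4.1]; exact key k

lemma dfs_false : ∀ s < 2, dfs s 40 32 0 = false := by decide +kernel

lemma no_cycle (s : ℕ) (hs : s < 2) {a : Fin 32} (p : G0.Walk a a) (hp : p.IsCycle)
    (hB : ∀ b : Fin 32, b.val / 16 = s → b ∈ p.support) (x : Fin 32) (hx : x ∈ p.support)
    (hxs : x.val / 16 ≠ s) : False := by
  have h := dfs_sound s hs (p.rotate x hx) hxs (hp.rotate hx).support_nodup 0 (by simp)
    (fun b hb => Or.inr (by
      have h1 := (p.mem_support_rotate_iff x hx).2 (hB b hb)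
      rw [← Walk.cons_tail_support] at h1
      rcases List.mem_cons.1 h1 with h2 | h2
      · subst h2; exact absurd hb hxs
      · exact h2)) (by simp) 40
  rw [show ff s x = 32 by simp [ff, hxs], dfs_false s hs] at h
  cases h

lemma noHam0 : ¬ Ham G0 := by
  rintro ⟨a, p, hp, h⟩
  exact no_cycle 0 (by decide) p hp (fun b _ => h b) 16 (h _) (by decide)

lemma noHam (v : Fin 32) : ¬ Ham (del G0 v) := by
  rintro ⟨a, p, hp, h⟩
  let f : del G0 v →g G0 := (Embedding.induce {w | w ≠ v}).toHom
  have hq : (p.map f).IsCycle := hp.map Subtype.val_injective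
  have hm : ∀ w, w ≠ v → w ∈ (p.map f).support := by
    intro w hw
    rw [Walk.support_map]
    exact List.mem_map.2 ⟨⟨w, hw⟩, h _, rfl⟩
  have : ∀ v : Fin 32, ∃ x : Fin 32, x ≠ v ∧ x.val / 16 = v.val / 16 := by decide +kernel
  obtain ⟨x, hx, hx2⟩ := this v
  apply no_cycle (1 - v.val / 16) (by omega) _ hq _ x (hm x hx) (by omega)
  intro b hb
  apply hm
  rintro rfl
  omega

def ps (v w : ℕ) : ℕ := ([1124397934971615507197974897227525558887074083968, 944113150408091589880058709723927230835654171653, 1124397934971615507197975050923491188492598411651, 1124397934971615507197974862945415556290073073768, 944113150408091589880058705001556250031300849802, 1124397934971615507197974894940129293609550066947, 1124397934971615507197974894933220490305414935819, 944113150408091589880058709723927232897102158985, 944113150408091589880058553885828785936473827749, 944113150408091589880058702646135283984662311203, 944113150408091589880058697923764546962795475236, 1124397934971615507197974738954465910057741956231, 1124397934971615507197975122931516180003737908548, 1124397934971615507197974894684180715189219663235,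 1124397934971615507197975040295860763287290619267, 944113150408091589880058210333668292964222282152, 1130098577589912565998909803693693038883429719177, 802865794785498581806218011291069701631489781187, 944291556369679832306446039554530051140229307529, 1171543105522921021361806032007086745215690644617, 808574790993991786874832838589540632030597000643, 1132863869994695421517692648545630440894491565193, 1132872222225354704057388474109985584265731021961, 802865794781760292863651955646990851802524724675, 991262495635306751738482141483637408864630123971, 811422318939848363082751235882923520566422056387, 817131275295801509337987548508513951159381306819, 1321437659264499682359175176094606297012613717129, 857197381840739282088530219840505294590940585097, 1131835248127730798196856561433780124376269626505, 914322142410853732595216755464101130142131199113, 36433787881805209612429214328854969899945209283, 1171543149079063988430351793033001560385180966025] : List ℕ).getD v 0 / 32 ^ w % 32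
def ip (v w : ℕ) : ℕ := ([39419204921690951730154057321632155174752659659, 39553889610734063476963228977872971688538678379, 39419204921690951730154057424609282747646617803, 39419204921690951730154057434731994678335418667, 39553889610734063476963228964098793731834389611, 39419204921690951730154057321632148543362836683, 39419204921690951730154057321524941761608557675, 39553889610734063476963228977872800160591258731, 39553889610734063476963228450907142268340544619, 39553889610734063476963228963960094776734261355, 39553889610734063476963228963960094833699436747, 39419204921690951730154057321632154688079445446, 39419204921690951730154057330053643209711815979, 39419204921690951730154057424566112285818366155, 39419204921690951730154057424608861325756475595, 39553889610734063476963228450906880718186882155, 39554098296953933775832441597386062855520265323, 39419212526199329639040770484738882498405083339, 39553889610734063909006975354493860234137052267, 39690532537808797179037048062655992963102286955, 39419204574936661612798764694576805141469472971, 39553888725501879522700175229078671100145443947,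 39419213131451095376458400013894715449357509739, 39419204566787080351727021847666496563518122187, 39419212529037315288306103356283951775819507915, 39417300402702284906734638574597894788532414667, 39559759005581162478923751933208251822847830219, 32781988841108848053504956127770115379278783595, 39678275242550480670749398691787379568257934443, 39553888725053679183255888533925146388652762219, 39553888632049224933878531374854626022151038059, 39419213119362241923542542389601470424157268171, 1261414557494110455364929837911423829706733397099] : List ℕ).getD v 0 / 32 ^ w % 32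
def sp (v : ℕ) : ℕ := ([0, 0, 0, 0, 0, 0, 0, 0, 0, 0, 0, 6, 0, 0, 0, 0, 0, 0, 0, 0, 0, 0, 0, 0, 0, 0, 0, 22, 0, 0, 0, 0] : List ℕ).getD v 0

lemma ps_ok : ∀ v < 33, ∀ w : Fin 32, w.val ≠ v → ip v (ps v w) = w ∧
    (ps v w ≤ 30 ∨ v = 32) ∧ (ps v w = 0 ∨ ip v (ps v w - 1) ∈ nb w) ∧
    (v = 32 ∨ dg 31 (ps 32 w) = dg 30 (ps v w) ∨ w = sp v) := by decide +kernel

lemma card_del (v : Fin 32) [Fintype {w | w ≠ v}] : Fintype.card {w | w ≠ v} = 30 + 1 := by
  have := Fintype.card_subtype_compl (fun w : Fin 32 => w = v)
  rw [Fintype.card_subtype_eq, Fintype.card_fin] at this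
  convert this

lemma inj0 : Function.Injective (fun w : Fin 32 => ps 32 w) := by
  intro x y h
  have h1 := (ps_ok 32 (by decide) x (by omega)).1
  have h2 := (ps_ok 32 (by decide) y (by omega)).1
  simp only at h
  rw [h, h2] at h1
  exact Fin.ext h1.symm

lemma le0 (x : Fin 32) : ps 32 x ≤ 31 := Nat.le_of_lt_succ (Nat.mod_lt _ (by decide))

lemma adj_of (v : ℕ) (hv : v < 33) (x y : Fin 32) (hx : x.val ≠ v) (hy : y.val ≠ v)
    (h : ps v x + 1 = ps v y) : G0.Adj y x := by
  have h1 := (ps_ok v hv x hx).1
  rcases (ps_ok v hv y hy).2.2.1 with h2 | h2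
  · omega
  · rw [← h, Nat.add_sub_cancel, h1] at h2
    exact h2

lemma mem0 : pg (fun w : Fin 32 => ps 32 w) ∈ MLS G0 := by
  apply pg_mem G0 noHam0 _ 31 (by decide) (by simp) inj0 le0
  rintro x y (h | h)
  · exact (adj_of 32 (by decide) x y (by omega) (by omega) h).symm
  · exact adj_of 32 (by decide) y x (by omega) (by omega) h

lemma nev {v : Fin 32} (x : {w | w ≠ v}) : x.val.val ≠ v.val := fun h => x.2 (Fin.ext h)

lemma injv (v : Fin 32) : Function.Injective (fun w : {w | w ≠ v} => ps v w.val) := by
  intro x y h
  have h1 := (ps_ok v (by omega) x (nev x)).1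
  have h2 := (ps_ok v (by omega) y (nev y)).1
  simp only at h
  rw [h, h2] at h1
  exact Subtype.ext (Fin.ext h1.symm)

lemma lev (v : Fin 32) (x : {w | w ≠ v}) : ps v x.val ≤ 30 := by
  have := (ps_ok v (by omega) x (nev x)).2.1
  omega

lemma lev' (v : Fin 32) : pg (fun w : {w | w ≠ v} => ps v w.val) ≤ del G0 v := by
  rintro x y (h | h)
  · exact (adj_of v (by omega) x y (nev x) (nev y) h).symm
  · exact adj_of v (by omega) y x (nev y) (nev x) h

lemma memv (v : Fin 32) : pg (fun w : {w | w ≠ v} => ps v w.val) ∈ MLS (del G0 v) :=
  pg_mem _ (noHam v) _ 30 (by decide) (card_del v) (injv v) (lev v) (lev' v)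

theorem result : ∃ (n : ℕ) (G : SimpleGraph (Fin n)), (∀ v, deg G v = 3) ∧
    3 ≤ n ∧ G.Connected ∧ (∀ v, (del G v).Connected) ∧ phi G = 1 := by
  have sp0 := pg_spec _ 31 (by decide) (by simp) inj0 le0
  have spv := fun v => pg_spec _ 30 (by decide) (card_del v) (injv v) (lev v)
  refine ⟨32, G0, ?_, by decide, ?_, fun v => (spv v).1.connected.mono (lev' v), ?_⟩
  · intro v
    rw [deg_eq]
    revert v
    decide +kernel
  · have := mem0
    simp only [MLS, Set.mem_ofPred_eq, if_neg noHam0] at this
    exact this.2.1.connected.mono this.1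
  · apply le_antisymm
    · refine le_trans (Nat.sInf_le ⟨_, mem0, rfl⟩) ?_
      apply Finset.sup_le
      intro v _
      refine le_trans (Nat.sInf_le ⟨_, memv v, rfl⟩) ?_
      rw [tau, Set.ncard_le_one_iff_subsingleton]
      intro x hx y hy
      simp only [Set.mem_ofPred_eq, sp0.2.1, (spv v).2.1] at hx hy
      have h1 := (ps_ok v (by omega) x (nev x)).2.2.2
      have h2 := (ps_ok v (by omega) y (nev y)).2.2.2
      apply Subtype.ext
      apply Fin.ext
      omega
    · refine le_csInf ⟨_, _, mem0, rfl⟩ ?_
      rintro t ⟨S, hS, rfl⟩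
      simp only [MLS, Set.mem_ofPred_eq, if_neg noHam0] at hS
      obtain ⟨v, hv⟩ : {w | deg S w = 1}.Nonempty := by
        rw [← Set.ncard_pos]
        have := two_le_leaves S hS.2.1
        unfold leaves at this
        omega
      refine le_trans ?_ (Finset.le_sup (Finset.mem_univ v))
      refine le_csInf ⟨_, _, memv v, rfl⟩ ?_
      rintro t ⟨Sv, -, rfl⟩
      rw [Nat.succ_le_iff, tau, Set.ncard_pos]
      by_contra hne
      have h1 : ∀ w : {w | w ≠ v}, deg S w = deg Sv w := by
        intro w
        by_contra h
        exact hne ⟨w, h⟩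
      have h2 := even_sum S
      have h3 := even_sum Sv
      rw [← Finset.sum_congr rfl (fun w _ => h1 w)] at h3
      rw [← Finset.add_sum_erase _ _ (Finset.mem_univ v), show deg S v = 1 from hv,
        Finset.sum_subtype (Finset.univ.erase v) (p := fun w => w ∈ {w | w ≠ v}) (by simp)] at h2
      exact (Nat.even_add.1 h2).2 h3 |> Nat.not_even_one

end Pool.Agent.Results.MP_54aac5_co.Fault
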